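import Pool.Agent.Q255.L2.StmV
import Pool.Agent.Q255.EP.Fin
import Pool.Agent.Q13.EP.REC
import Pool.Agent.Q96.EP.Lawe

/-!
# Laws of information `x^δ` with larger mean values (`S_VMC` of helper255)
-/

set_option autoImplicit false

namespace Pool.Agent.Q124.L2

open Filter Topology MeasureTheory Finset
open Pool.Agent.Q255.IC Pool.Agent.Q255.IR Pool.Agent.Q255.EP Pool.Agent.Q255.L2
open scoped ENNReal

theorem cm_prod (ω : ℕ → Bool) {ι : Type*} (S : Finset ι) (f : ι → ℕ) (hf : ∀ i ∈ S, f i ≠ 0) :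
    cm ω (∏ i ∈ S, f i) = ∏ i ∈ S, cm ω (f i) := by
  classical
  induction S using Finset.induction_on with
  | empty => simpa using Pool.Agent.Q13.EP.cm_one ω
  | insert a S ha ih =>
    rw [Finset.prod_insert ha, Finset.prod_insert ha, Pool.Agent.Q13.EP.cm_mul ω
      (hf a (Finset.mem_insert_self a S)), ih fun i hi => hf i (Finset.mem_insert_of_mem hi)]
    exact Finset.prod_ne_zero_iff.2 fun i hi => hf i (Finset.mem_insert_of_mem hi)

/-- the primes with an odd exponent -/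
noncomputable def od (m : ℕ) : Finset ℕ := m.primeFactors.filter fun p => Odd (m.factorization p)

theorem od_prime {m p : ℕ} (hp : p ∈ od m) : p.Prime :=
  Nat.prime_of_mem_primeFactors (Finset.mem_filter.1 hp).1

theorem sg_sq (ω : ℕ → Bool) (k : ℕ) : sg ω k ^ 2 = 1 := by
  unfold sg; split_ifs <;> norm_num

theorem cm_od (ω : ℕ → Bool) (m : ℕ) :
    cm ω m = ∏ j ∈ (od m).image (Nat.count Nat.Prime), sg ω j := by
  classical
  have hinj : ∀ a ∈ od m, ∀ b ∈ od m, Nat.count Nat.Prime a = Nat.count Nat.Prime b → a = b := by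
    intro a ha b hb hab
    rw [← Pool.Agent.Q13.EP.pr_count (od_prime ha), ← Pool.Agent.Q13.EP.pr_count (od_prime hb), hab]
  rw [Finset.prod_image hinj]
  unfold cm Finsupp.prod od
  rw [Nat.support_factorization, Finset.prod_filter]
  refine Finset.prod_congr rfl fun p _ => ?_
  split_ifs with h
  · obtain ⟨t, ht⟩ := h
    show sg ω (Nat.count Nat.Prime p) ^ (m.factorization p) = _
    rw [ht, pow_succ, pow_mul, sg_sq, one_pow, one_mul]
  · rw [Nat.not_odd_iff_even] at h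
    obtain ⟨t, ht⟩ := h
    show sg ω (Nat.count Nat.Prime p) ^ (m.factorization p) = _
    rw [ht, ← two_mul, pow_mul, sg_sq, one_pow]

theorem cm_meas (m : ℕ) : Measurable fun ω : ℕ → Bool => cm ω m := by
  simp only [cm_od]
  exact Finset.measurable_prod _ fun j _ => Pool.Agent.Q96.EP.sg_meas j

theorem cm_int (ν : Measure (ℕ → Bool)) [IsProbabilityMeasure ν] (m : ℕ) :
    Integrable (fun ω => cm ω m) ν :=
  Integrable.of_bound (cm_meas m).aestronglyMeasurable 1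
    (ae_of_all _ fun ω => by rw [Real.norm_eq_abs, Pool.Agent.Q13.EP.abs_cm])

/-- the expectation of `cm` at `m` -/
theorem mean_ge (ν : Measure (ℕ → Bool)) (β : ℝ) (hβ : β ≤ 0)
    (h : ∀ s : Finset ℕ, ∫ ω, ∏ k ∈ s, sg ω k ∂ν = ∏ k ∈ s, (pr k : ℝ) ^ β) {m : ℕ} (hm : 1 ≤ m) :
    (m : ℝ) ^ β ≤ ∫ ω, cm ω m ∂ν := by
  classical
  simp only [cm_od]
  rw [h]
  have hinj : ∀ a ∈ od m, ∀ b ∈ od m, Nat.count Nat.Prime a = Nat.count Nat.Prime b → a = b := by
    intro a ha b hb hab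
    rw [← Pool.Agent.Q13.EP.pr_count (od_prime ha), ← Pool.Agent.Q13.EP.pr_count (od_prime hb), hab]
  rw [Finset.prod_image hinj]
  have e1 : ∏ p ∈ od m, (pr (Nat.count Nat.Prime p) : ℝ) ^ β = ((∏ p ∈ od m, p : ℕ) : ℝ) ^ β := by
    rw [Nat.cast_prod, ← Real.finsetProd_rpow _ _ fun i _ => Nat.cast_nonneg i]
    exact Finset.prod_congr rfl fun p hp => by rw [Pool.Agent.Q13.EP.pr_count (od_prime hp)]
  rw [e1]
  have h1 : 0 < ∏ p ∈ od m, p := Finset.prod_pos fun p hp => (od_prime hp).pos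
  have h2 : ∏ p ∈ od m, p ≤ m := by
    have h3 : ∏ p ∈ od m, p ∣ ∏ p ∈ m.primeFactors, p :=
      Finset.prod_dvd_prod_of_subset _ _ _ (Finset.filter_subset _ _)
    exact Nat.le_of_dvd (by omega) (h3.trans (Nat.prod_primeFactors_dvd m))
  exact Real.rpow_le_rpow_of_nonpos (by exact_mod_cast h1) (by exact_mod_cast h2) hβ

theorem mem_sol {s k : ℕ} {I : Finset ℕ} {t : (Fin s → ℕ) × (Fin s → ℕ)} :
    t ∈ Sol s k I ↔ ((∀ i, t.1 i ∈ I) ∧ ∀ i, t.2 i ∈ I) ∧
      ∀ j ∈ Icc 1 k, ∑ i, t.1 i ^ j = ∑ i, t.2 i ^ j := by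
  simp only [Sol, Finset.mem_filter, Finset.mem_product, Fintype.mem_piFinset]

theorem gauss (k : ℕ) : ∑ j ∈ range k, (j + 1) = k * (k + 1) / 2 := by
  have h : (∑ j ∈ range k, (j + 1)) * 2 = k * (k + 1) := by
    induction k with
    | zero => rfl
    | succ k ih => rw [Finset.sum_range_succ, add_mul, ih]; ring
  omega

open Classical in
/-- the number of the solutions -/
theorem card_sol (s k N : ℕ) (hs : 1 ≤ s) :
    N ^ (2 * s) ≤ (s ^ k * N ^ (k * (k + 1) / 2)) * (Sol s k (Icc 1 N)).card := by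
  set A : Finset (Fin s → ℕ) := Fintype.piFinset fun _ : Fin s => Icc 1 N with hA
  set B : Finset (Fin k → ℕ) := Fintype.piFinset fun j : Fin k => Icc 1 (s * N ^ ((j : ℕ) + 1)) with hB
  let f : (Fin s → ℕ) → (Fin k → ℕ) := fun x j => ∑ i, x i ^ ((j : ℕ) + 1)
  have hAc : A.card = N ^ s := by
    rw [hA, Fintype.card_piFinset]; simp
  have hBc : B.card = s ^ k * N ^ (k * (k + 1) / 2) := by
    rw [hB, Fintype.card_piFinset]
    simp only [Nat.card_Icc, Nat.add_sub_cancel]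
    rw [Finset.prod_mul_distrib, Finset.prod_const, Finset.card_univ, Fintype.card_fin,
      Finset.prod_pow_eq_pow_sum]
    congr 2
    rw [Fin.sum_univ_eq_sum_range (fun j => j + 1) k, gauss]
  have hmap : ∀ x ∈ A, f x ∈ B := by
    intro x hx
    rw [hB, Fintype.mem_piFinset]
    intro j
    rw [hA, Fintype.mem_piFinset] at hx
    rw [Finset.mem_Icc]
    constructor
    · have h0 : 0 < s := hs
      have h1 : x ⟨0, h0⟩ ^ ((j : ℕ) + 1) ≤ f x j :=
        Finset.single_le_sum (f := fun i => x i ^ ((j : ℕ) + 1)) (fun _ _ => Nat.zero_le _)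
          (Finset.mem_univ _)
      have h2 : 1 ≤ x ⟨0, h0⟩ := (Finset.mem_Icc.1 (hx ⟨0, h0⟩)).1
      exact (Nat.one_le_pow _ _ h2).trans h1
    · calc f x j ≤ ∑ _i : Fin s, N ^ ((j : ℕ) + 1) :=
            Finset.sum_le_sum fun i _ => Nat.pow_le_pow_left (Finset.mem_Icc.1 (hx i)).2 _
        _ = s * N ^ ((j : ℕ) + 1) := by
            rw [Finset.sum_const, Finset.card_univ, Fintype.card_fin, smul_eq_mul]
  have h1 : A.card = ∑ b ∈ B, (A.filter fun x => f x = b).card :=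
    Finset.card_eq_sum_card_fiberwise hmap
  have h2 : (Sol s k (Icc 1 N)).card = ∑ b ∈ B, (A.filter fun x => f x = b).card ^ 2 := by
    have h3 : ∀ t ∈ Sol s k (Icc 1 N), f t.1 ∈ B := by
      intro t ht
      exact hmap _ (Fintype.mem_piFinset.2 (mem_sol.1 ht).1.1)
    rw [Finset.card_eq_sum_card_fiberwise h3]
    refine Finset.sum_congr rfl fun b _ => ?_
    rw [pow_two, ← Finset.card_product]
    congr 1
    ext ⟨x, y⟩
    simp only [Finset.mem_filter, Finset.mem_product, mem_sol, hA, Fintype.mem_piFinset]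
    constructor
    · rintro ⟨⟨⟨hx, hy⟩, hxy⟩, hb⟩
      refine ⟨⟨hx, hb⟩, hy, ?_⟩
      rw [← hb]
      funext j
      exact (hxy ((j : ℕ) + 1) (Finset.mem_Icc.2 ⟨by omega, by have := j.2; omega⟩)).symm
    · rintro ⟨⟨hx, hb⟩, hy, hb'⟩
      refine ⟨⟨⟨hx, hy⟩, ?_⟩, hb⟩
      intro j hj
      rw [Finset.mem_Icc] at hj
      have h4 := congrFun (hb.trans hb'.symm) ⟨j - 1, by omega⟩
      simp only [f] at h4
      rw [Nat.sub_add_cancel hj.1] at h4
      exact h4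
  have h3 : A.card ^ 2 ≤ B.card * (Sol s k (Icc 1 N)).card := by
    rw [h1, h2]
    exact sq_sum_le_card_mul_sum_sq
  rw [hAc, hBc, ← pow_mul, mul_comm s 2] at h3
  exact h3

theorem vmc : S_VMC := by
  intro δ hδ0 hδ1
  obtain ⟨β, hβ⟩ : ∃ β : ℝ, β = (δ - 1) / 2 := ⟨_, rfl⟩
  have hβ0 : β ≤ 0 := by rw [hβ]; linarith
  obtain ⟨ν, hν, hD, hE⟩ := Pool.Agent.Q96.EP.lawe (fun k => (pr k : ℝ) ^ β) (fun k => by
    have h1 : (1 : ℝ) ≤ pr k := by exact_mod_cast (pr_prime k).one_lt.le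
    rw [abs_of_nonneg (by positivity)]
    exact Real.rpow_le_one_of_one_le_of_nonpos h1 hβ0)
  refine ⟨ν, hν, ⟨δ⁻¹, fun x _ => ?_⟩, fun s k hs _ => ⟨1 / (s : ℝ) ^ k, by positivity, fun N hN => ?_⟩⟩
  · refine (hD _).trans ?_
    have h1 := sum_pr_le hδ0 hδ1.le x
    simp only [neg_sq] at h1
    rw [hβ]
    exact h1
  · have hN1 : (1 : ℝ) ≤ N := by exact_mod_cast hN
    have hNp : (0 : ℝ) < N := by linarith
    have hsp : (0 : ℝ) < s := by exact_mod_cast hs
    have hmem : ∀ t ∈ Sol s k (Icc 1 N), (∀ i, 1 ≤ t.1 i ∧ t.1 i ≤ N) ∧ ∀ i, 1 ≤ t.2 i ∧ t.2 i ≤ N := by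
      intro t ht
      rw [mem_sol] at ht
      exact ⟨fun i => Finset.mem_Icc.1 (ht.1.1 i), fun i => Finset.mem_Icc.1 (ht.1.2 i)⟩
    have e1 : ∀ ω, JJ (cm ω) s k (Icc 1 N) =
        ∑ t ∈ Sol s k (Icc 1 N), cm ω ((∏ i, t.1 i) * ∏ i, t.2 i) := by
      intro ω
      unfold JJ
      refine Finset.sum_congr rfl fun t ht => ?_
      have h1 := hmem t ht
      rw [Pool.Agent.Q13.EP.cm_mul ω
        (Finset.prod_ne_zero_iff.2 fun i _ => by have := (h1.1 i).1; omega)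
        (Finset.prod_ne_zero_iff.2 fun i _ => by have := (h1.2 i).1; omega),
        cm_prod ω _ _ (fun i _ => by have := (h1.1 i).1; omega),
        cm_prod ω _ _ (fun i _ => by have := (h1.2 i).1; omega)]
    simp only [e1]
    rw [integral_finsetSum _ fun t _ => cm_int ν _]
    have h2 : ∀ t ∈ Sol s k (Icc 1 N), (N : ℝ) ^ ((s : ℝ) * (δ - 1)) ≤
        ∫ ω, cm ω ((∏ i, t.1 i) * ∏ i, t.2 i) ∂ν := by
      intro t ht
      have h1 := hmem t ht
      have hp1 : 0 < ∏ i, t.1 i := Finset.prod_pos fun i _ => (h1.1 i).1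
      have hp2 : 0 < ∏ i, t.2 i := Finset.prod_pos fun i _ => (h1.2 i).1
      have hp3 : 0 < (∏ i, t.1 i) * ∏ i, t.2 i := Nat.mul_pos hp1 hp2
      have hle : (∏ i, t.1 i) * ∏ i, t.2 i ≤ N ^ (2 * s) := by
        have h3 : ∏ i, t.1 i ≤ N ^ s := by
          calc ∏ i, t.1 i ≤ ∏ _i : Fin s, N := Finset.prod_le_prod' fun i _ => (h1.1 i).2
            _ = N ^ s := by rw [Finset.prod_const, Finset.card_univ, Fintype.card_fin]
        have h4 : ∏ i, t.2 i ≤ N ^ s := by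
          calc ∏ i, t.2 i ≤ ∏ _i : Fin s, N := Finset.prod_le_prod' fun i _ => (h1.2 i).2
            _ = N ^ s := by rw [Finset.prod_const, Finset.card_univ, Fintype.card_fin]
        calc (∏ i, t.1 i) * ∏ i, t.2 i ≤ N ^ s * N ^ s := Nat.mul_le_mul h3 h4
          _ = N ^ (2 * s) := by rw [← pow_add]; congr 1; ring
      refine le_trans ?_ (mean_ge ν β hβ0 hE hp3)
      have h5 : ((N : ℝ) ^ (2 * s)) ^ β ≤ (((∏ i, t.1 i) * ∏ i, t.2 i : ℕ) : ℝ) ^ β :=
        Real.rpow_le_rpow_of_nonpos (by exact_mod_cast hp3) (by exact_mod_cast hle) hβ0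
      refine le_trans (le_of_eq ?_) h5
      rw [← Real.rpow_natCast, ← Real.rpow_mul hNp.le, hβ]
      congr 1
      push_cast
      ring
    refine le_trans ?_ (Finset.sum_le_sum h2)
    rw [Finset.sum_const, nsmul_eq_mul]
    obtain ⟨c, hc⟩ : ∃ c : ℝ, c = ((Sol s k (Icc 1 N)).card : ℝ) := ⟨_, rfl⟩
    rw [← hc]
    have h3 : (N : ℝ) ^ (2 * s) ≤ ((s : ℝ) ^ k * (N : ℝ) ^ (k * (k + 1) / 2)) * c := by
      rw [hc]
      exact_mod_cast card_sol s k N hs
    have hK : ((k * (k + 1) / 2 : ℕ) : ℝ) = (k : ℝ) * (k + 1) / 2 := by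
      obtain ⟨r, hr⟩ := Nat.even_mul_succ_self k
      have h4 : k * (k + 1) = r + r := hr
      rw [h4, ← two_mul, Nat.mul_div_cancel_left _ two_pos]
      have h5 : (k : ℝ) * (k + 1) = 2 * r := by
        have : ((k * (k + 1) : ℕ) : ℝ) = ((r + r : ℕ) : ℝ) := by rw [h4]
        push_cast at this
        linarith
      rw [h5]; ring
    have h6 : (N : ℝ) ^ ((s : ℝ) + s * δ - k * (k + 1) / 2) =
        (N : ℝ) ^ (2 * s) * ((N : ℝ) ^ (k * (k + 1) / 2))⁻¹ * (N : ℝ) ^ ((s : ℝ) * (δ - 1)) := by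
      rw [← Real.rpow_natCast, ← Real.rpow_natCast, hK, ← Real.rpow_neg hNp.le,
        ← Real.rpow_add hNp, ← Real.rpow_add hNp]
      congr 1
      push_cast
      ring
    rw [h6, ← mul_assoc]
    refine mul_le_mul_of_nonneg_right ?_ (by positivity)
    have h7 : (0 : ℝ) < (N : ℝ) ^ (k * (k + 1) / 2) := by positivity
    have h8 : (0 : ℝ) < (s : ℝ) ^ k := by positivity
    rw [← mul_assoc, mul_inv_le_iff₀ h7, one_div, inv_mul_le_iff₀ h8]
    linarith [h3, mul_comm c ((N : ℝ) ^ (k * (k + 1) / 2)),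
      mul_assoc ((s : ℝ) ^ k) ((N : ℝ) ^ (k * (k + 1) / 2)) c,
      mul_assoc ((s : ℝ) ^ k) c ((N : ℝ) ^ (k * (k + 1) / 2))]

end Pool.Agent.Q124.L2
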